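import Pool.Agent.V11105.CLPd

open Matrix ComplexOrder
open scoped Kronecker Matrix.Norms.L2Operator MatrixOrder

namespace Pool.Agent.Results.MP_2a866c_an.NotGeneralizedCLP

open Pool.Agent.V11105.CLP

lemma key_sums {α β ζ : ℕ}
    (L : Matrix ((Fin 2 × Fin α) ⊕ ((Fin 2 × Fin β) ⊕ Fin ζ)) (Fin 6) ℂ)
    (S : Matrix (Fin 2) (Fin 2) ℂ) (Y : Matrix (Fin ζ) (Fin ζ) ℂ)
    (h : Fin 2 → ℂ) (h₁ : Fin α → ℂ) (h₂ : Fin β → ℂ)
    (hc : L *ᵥ ww h = bigVec ζ h h₁ h₂)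
    (hM : MM S = Lᴴ * bigSum α β S Y * L) (p : Fin 6) :
    (MM S *ᵥ ww h) p =
      ∑ s, (starRingEnd ℂ (L (Sum.inl (0, s)) p) * (S 0 0 * h 0 + S 0 1 * h 1) * h₁ s)
      + ∑ s, (starRingEnd ℂ (L (Sum.inl (1, s)) p) * (S 1 0 * h 0 + S 1 1 * h 1) * h₁ s)
      + (∑ s, (starRingEnd ℂ (L (Sum.inr (Sum.inl (0, s))) p) *
          (S 0 0 * starRingEnd ℂ (h 0) + S 1 0 * starRingEnd ℂ (h 1)) * h₂ s)
      + ∑ s, (starRingEnd ℂ (L (Sum.inr (Sum.inl (1, s))) p) *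
          (S 0 1 * starRingEnd ℂ (h 0) + S 1 1 * starRingEnd ℂ (h 1)) * h₂ s)) := by
  rw [hM, ← Matrix.mulVec_mulVec, ← Matrix.mulVec_mulVec, hc, bigSum_bigVec]
  simp only [Matrix.mulVec, dotProduct, Fintype.sum_sum_type, Fintype.sum_prod_type,
    Fin.sum_univ_two, Matrix.conjTranspose_apply, Sum.elim_inl, Sum.elim_inr, mul_zero,
    Finset.sum_const_zero, add_zero, Matrix.transpose_apply, Pi.star_apply, Complex.star_def]
  congr 1
  · congr 1
    · exact Finset.sum_congr rfl (fun s _ => by ring)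
    · exact Finset.sum_congr rfl (fun s _ => by ring)
  · congr 1
    · exact Finset.sum_congr rfl (fun s _ => by ring)
    · exact Finset.sum_congr rfl (fun s _ => by ring)

lemma pull {α : ℕ} (g b : Fin α → ℂ) :
    ∑ s, g s * Complex.I * b s = Complex.I * ∑ s, g s * b s := by
  rw [Finset.mul_sum]
  exact Finset.sum_congr rfl (fun s _ => by ring)

/-- **Answer to Q1 (negative).** There is a real-linear map `Φ : H_2 → H_6` between the spaces
of hermitian `2 × 2` and `6 × 6` complex matrices which is unital, positive and isometric for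
the operator norm, but is not a generalized CLP isometry. -/
theorem result : ∃ Φ : Herm 2 →ₗ[ℝ] Herm 6,
    IsUnital Φ ∧ IsPos Φ ∧ IsIsom Φ ∧ ¬ IsGenCLP Φ := by
  obtain ⟨B, hB, hB2⟩ := exists_B
  refine ⟨Phi B, Phi_unital B hB hB2, Phi_pos B, Phi_isom B hB hB2, ?_⟩
  rintro ⟨α, β, ζ, f, V, -, -, -, hV, hΦ⟩
  set L := V * B with hLdef
  have hM : ∀ X : Herm 2, MM (X : Matrix (Fin 2) (Fin 2) ℂ) =
      Lᴴ * bigSum α β (X : Matrix (Fin 2) (Fin 2) ℂ) (f X : Matrix (Fin ζ) (Fin ζ) ℂ) * L := by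
    intro X
    have h1 : (B⁻¹)ᴴ * MM X * B⁻¹ =
      Vᴴ * bigSum α β (X : Matrix (Fin 2) (Fin 2) ℂ) (f X : Matrix (Fin ζ) (Fin ζ) ℂ) * V := hΦ X
    have h2 : MM (X : Matrix (Fin 2) (Fin 2) ℂ) = Bᴴ * ((B⁻¹)ᴴ * MM X * B⁻¹) * B := by
      have e1 : Bᴴ * (B⁻¹)ᴴ = 1 := by
        rw [← Matrix.conjTranspose_mul, Matrix.nonsing_inv_mul B hB, Matrix.conjTranspose_one]
      calc MM (X : Matrix (Fin 2) (Fin 2) ℂ) = (Bᴴ * (B⁻¹)ᴴ) * MM X * (B⁻¹ * B) := by
            rw [e1, Matrix.nonsing_inv_mul B hB, Matrix.one_mul, Matrix.mul_one]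
        _ = _ := by simp only [Matrix.mul_assoc]
    rw [h2, h1, hLdef, Matrix.conjTranspose_mul]
    simp only [Matrix.mul_assoc]
  have hcf : ∀ h : Fin 2 → ℂ, h ≠ 0 → ∃ (h₁ : Fin α → ℂ) (h₂ : Fin β → ℂ),
      L *ᵥ ww h = bigVec ζ h h₁ h₂ := fun h hh => col_form hB f V hV hM h hh
  -- coefficient identities
  have hco : ∀ s : Fin α, L (Sum.inl (1, s)) 1 = L (Sum.inl (0, s)) 0 ∧
      L (Sum.inl (1, s)) 5 = L (Sum.inl (0, s)) 4 := by
    intro s
    apply coeffs (L (Sum.inl (1, s)) 0) (L (Sum.inl (1, s)) 1) (L (Sum.inl (1, s)) 2)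
      (L (Sum.inl (1, s)) 3) (L (Sum.inl (1, s)) 4) (L (Sum.inl (1, s)) 5)
      (L (Sum.inl (0, s)) 0) (L (Sum.inl (0, s)) 1) (L (Sum.inl (0, s)) 2)
      (L (Sum.inl (0, s)) 3) (L (Sum.inl (0, s)) 4) (L (Sum.inl (0, s)) 5)
    intro t
    obtain ⟨h₁, h₂, h3⟩ := hcf ![1, t] (by
      intro h0
      have := congrFun h0 0
      simp at this)
    have e0 := congrFun h3 (Sum.inl (0, s))
    have e1 := congrFun h3 (Sum.inl (1, s))
    simp [Matrix.mulVec, dotProduct, Fin.sum_univ_succ, ww, bigVec, Fin.succ] at e0 e1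
    rw [← e0] at e1
    linear_combination e1
  -- first special vector
  obtain ⟨a₁, a₂, ha⟩ := hcf ![1, 0] (by
      intro h0
      have := congrFun h0 0
      simp at this)
  obtain ⟨b₁, b₂, hb⟩ := hcf ![0, 1] (by
      intro h0
      have := congrFun h0 1
      simp at this)
  have hLa : ∀ s, L (Sum.inl (0, s)) 0 = a₁ s := by
    intro s
    have e0 := congrFun ha (Sum.inl (0, s))
    simp [Matrix.mulVec, dotProduct, Fin.sum_univ_succ, ww, bigVec, Fin.succ] at e0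
    exact e0
  have hLb : ∀ s, L (Sum.inl (1, s)) 5 = b₁ s := by
    intro s
    have e0 := congrFun hb (Sum.inl (1, s))
    simp [Matrix.mulVec, dotProduct, Fin.sum_univ_succ, ww, bigVec, Fin.succ] at e0
    exact e0
  -- the two hermitian test matrices
  have hX1 : (Matrix.of ![![0, 1], ![1, 0]] : Matrix (Fin 2) (Fin 2) ℂ).IsHermitian := by
    ext i j
    fin_cases i <;> fin_cases j <;> simp [Matrix.conjTranspose_apply]
  have hX2 : (Matrix.of ![![0, -Complex.I], ![Complex.I, 0]] :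
      Matrix (Fin 2) (Fin 2) ℂ).IsHermitian := by
    ext i j
    fin_cases i <;> fin_cases j <;> simp [Matrix.conjTranspose_apply]
  have m1 := hM ⟨_, hX1⟩
  have m2 := hM ⟨_, hX2⟩
  simp only at m1 m2
  have kb1 := key_sums L _ _ _ _ _ hb m1
  have kb2 := key_sums L _ _ _ _ _ hb m2
  have ka1 := key_sums L _ _ _ _ _ ha m1
  have ka2 := key_sums L _ _ _ _ _ ha m2
  have hI : Complex.I * Complex.I = -1 := Complex.I_mul_I
  have s1 : ∑ s, starRingEnd ℂ (L (Sum.inl (0, s)) 0) * b₁ s = -3 := by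
    have e1 := kb1 0
    have e2 := kb2 0
    simp [Matrix.mulVec, dotProduct, Fin.sum_univ_succ, ww, MM, Fin.succ] at e1 e2
    rw [pull, pull] at e2
    linear_combination (-e1 - Complex.I * e2) / 2 + (3/2 + (∑ s, starRingEnd ℂ (L (Sum.inl (0, s)) 0) * b₁ s) / 2
      - (∑ s, starRingEnd ℂ (L (Sum.inr (Sum.inl (0, s))) 0) * b₂ s) / 2) * hI
  have s2 : ∑ s, starRingEnd ℂ (L (Sum.inl (0, s)) 4) * b₁ s = 2 := by
    have e1 := kb1 4
    have e2 := kb2 4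
    simp [Matrix.mulVec, dotProduct, Fin.sum_univ_succ, ww, MM, Fin.succ] at e1 e2
    rw [pull, pull] at e2
    linear_combination (-e1 - Complex.I * e2) / 2 + (-1 + (∑ s, starRingEnd ℂ (L (Sum.inl (0, s)) 4) * b₁ s) / 2
      - (∑ s, starRingEnd ℂ (L (Sum.inr (Sum.inl (0, s))) 4) * b₂ s) / 2) * hI
  have s3 : ∑ s, starRingEnd ℂ (L (Sum.inl (1, s)) 1) * a₁ s = 2 := by
    have e1 := ka1 1
    have e2 := ka2 1
    simp [Matrix.mulVec, dotProduct, Fin.sum_univ_succ, ww, MM, Fin.succ] at e1 e2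
    rw [pull, pull] at e2
    linear_combination (-e1 + Complex.I * e2) / 2
      + ((∑ s, starRingEnd ℂ (L (Sum.inl (1, s)) 1) * a₁ s) / 2
      - (∑ s, starRingEnd ℂ (L (Sum.inr (Sum.inl (1, s))) 1) * a₂ s) / 2 - 1) * hI
  have s4 : ∑ s, starRingEnd ℂ (L (Sum.inl (1, s)) 5) * a₁ s = -3 := by
    have e1 := ka1 5
    have e2 := ka2 5
    simp [Matrix.mulVec, dotProduct, Fin.sum_univ_succ, ww, MM, Fin.succ] at e1 e2
    rw [pull, pull] at e2
    linear_combination (-e1 + Complex.I * e2) / 2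
      + ((∑ s, starRingEnd ℂ (L (Sum.inl (1, s)) 5) * a₁ s) / 2
      - (∑ s, starRingEnd ℂ (L (Sum.inr (Sum.inl (1, s))) 5) * a₂ s) / 2 + 3/2) * hI
  have hfin : ∑ s, starRingEnd ℂ (a₁ s + b₁ s) * (a₁ s + b₁ s) = -2 := by
    have t1 : ∑ s, starRingEnd ℂ (a₁ s) * b₁ s = -3 := by
      rw [← s1]; exact Finset.sum_congr rfl (fun s _ => by rw [hLa])
    have t2 : ∑ s, starRingEnd ℂ (b₁ s) * b₁ s = 2 := by
      rw [← s2]; exact Finset.sum_congr rfl (fun s _ => by rw [← (hco s).2, hLb])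
    have t3 : ∑ s, starRingEnd ℂ (a₁ s) * a₁ s = 2 := by
      rw [← s3]; exact Finset.sum_congr rfl (fun s _ => by rw [(hco s).1, hLa])
    have t4 : ∑ s, starRingEnd ℂ (b₁ s) * a₁ s = -3 := by
      rw [← s4]; exact Finset.sum_congr rfl (fun s _ => by rw [hLb])
    have : ∑ s, starRingEnd ℂ (a₁ s + b₁ s) * (a₁ s + b₁ s) =
        ∑ s, starRingEnd ℂ (a₁ s) * b₁ s + ∑ s, starRingEnd ℂ (b₁ s) * b₁ s
        + ∑ s, starRingEnd ℂ (a₁ s) * a₁ s + ∑ s, starRingEnd ℂ (b₁ s) * a₁ s := by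
      rw [← Finset.sum_add_distrib, ← Finset.sum_add_distrib, ← Finset.sum_add_distrib]
      refine Finset.sum_congr rfl (fun s _ => ?_)
      rw [map_add]; ring
    rw [this, t1, t2, t3, t4]
    norm_num
  have hnn : 0 ≤ (∑ s, starRingEnd ℂ (a₁ s + b₁ s) * (a₁ s + b₁ s)).re := by
    rw [Complex.re_sum]
    refine Finset.sum_nonneg (fun s _ => ?_)
    rw [mul_comm, Complex.mul_conj, Complex.ofReal_re]
    exact Complex.normSq_nonneg _
  rw [hfin] at hnn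
  norm_num at hnn

end Pool.Agent.Results.MP_2a866c_an.NotGeneralizedCLP
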